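import Pool.Agent.Helper35.HSF.StC

set_option autoImplicit false

namespace Pool.Agent.Helper84.HSF

open Helper35.HSF Helper35.MS Helper35.PI Helper35.PI2 Helper32.CL
open scoped ContDiff Manifold Topology ENNReal BigOperators
open MeasureTheory Set Filter

/-- the points which have a curvature in a closed set of levels form a closed set -/
theorem closed_lev {n : ℕ} {M : Type} [TopologicalSpace M] [T2Space M] [CompactSpace M]
    [ChartedSpace (EE n) M] (F ν : M → ℝ → EE (n + 2)) (t : ℝ)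
    (hK : IsCompact {p : (M × ℝ) × ℝ | p.1.2 ∈ Icc t t ∧ p.2 ∈ ZS n F ν p.1.1 p.1.2})
    (Cc : Set ℝ) (hC : IsClosed Cc) : IsClosed {y : M | ∃ z ∈ ZS n F ν y t, z ∈ Cc} := by
  have h1 : IsCompact ({p : (M × ℝ) × ℝ | p.1.2 ∈ Icc t t ∧ p.2 ∈ ZS n F ν p.1.1 p.1.2} ∩
      (fun p : (M × ℝ) × ℝ => p.2) ⁻¹' Cc) :=
    hK.inter_right (hC.preimage continuous_snd)
  have h2 : {y : M | ∃ z ∈ ZS n F ν y t, z ∈ Cc} = (fun p : (M × ℝ) × ℝ => p.1.1) ''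
      ({p : (M × ℝ) × ℝ | p.1.2 ∈ Icc t t ∧ p.2 ∈ ZS n F ν p.1.1 p.1.2} ∩
      (fun p : (M × ℝ) × ℝ => p.2) ⁻¹' Cc) := by
    ext y
    constructor
    · rintro ⟨z, hz, hzC⟩
      exact ⟨((y, t), z), ⟨⟨⟨le_rfl, le_rfl⟩, hz⟩, hzC⟩, rfl⟩
    · rintro ⟨⟨⟨y', s⟩, z⟩, ⟨⟨hs, hz⟩, hzC⟩, rfl⟩
      have hst : s = t := le_antisymm hs.2 hs.1
      subst hst
      exact ⟨z, hz, hzC⟩
  rw [h2]
  exact (h1.image (continuous_fst.comp continuous_fst)).isClosed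

/-- there is a unit tangent vector -/
theorem unit_c {n : ℕ} (hn : 1 ≤ n) {N : ℕ} {M : Type} [TopologicalSpace M]
    [ChartedSpace (EE n) M] (F : M → ℝ → EE N) (q : M) (t : ℝ)
    (hli : LI (loc (n := n) F q t) (chartAt (EE n) q q)) :
    ∃ c : Fin n → ℝ, gn F q t c = 1 := by
  have hli' : LinearIndependent ℝ
      (fun i : Fin n => dv1 (loc (n := n) F q t) (chartAt (EE n) q q) i) := hli
  have hv : dv1 (loc (n := n) F q t) (chartAt (EE n) q q) ⟨0, hn⟩ ≠ 0 :=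
    hli'.ne_zero ⟨0, hn⟩
  have hv' : ‖dv1 (loc (n := n) F q t) (chartAt (EE n) q q) ⟨0, hn⟩‖ ≠ 0 := norm_ne_zero_iff.mpr hv
  refine ⟨fun i => if i = ⟨0, hn⟩ then
    ‖dv1 (loc (n := n) F q t) (chartAt (EE n) q q) ⟨0, hn⟩‖⁻¹ else 0, ?_⟩
  unfold gn tv
  have : (∑ i : Fin n, (if i = ⟨0, hn⟩ then
      ‖dv1 (loc (n := n) F q t) (chartAt (EE n) q q) ⟨0, hn⟩‖⁻¹ else 0) •
      dv1 (loc (n := n) F q t) (chartAt (EE n) q q) i) =
      ‖dv1 (loc (n := n) F q t) (chartAt (EE n) q q) ⟨0, hn⟩‖⁻¹ •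
        dv1 (loc (n := n) F q t) (chartAt (EE n) q q) ⟨0, hn⟩ := by
    simp [ite_smul]
  rw [this, norm_smul, norm_inv, norm_norm, inv_mul_cancel₀ hv', one_pow]

theorem hCVX (hLGE : StLGE) (hCPZ : StCPZ) : StCVX := by
  intro n hn1 M _ _ _ _ _ _ J F ν hF t ht hinj k hk0 hk1 hP x₀ q₀ hq0 hrq hkr hz y
  have hr : 0 < rr n t := hF.r0 t ht
  have hIcc : Icc t t ⊆ J := by
    intro s hs
    have : s = t := le_antisymm hs.2 hs.1
    rw [this]; exact ht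
  have hK := hCPZ n M J F ν hF t t hIcc (by
    intro s hs
    have : s = t := le_antisymm hs.2 hs.1
    rw [this]; exact hinj)
  have hcov := hLGE n hn1 M J F ν hF t ht hinj x₀ q₀ hq0 hrq
    (fun y hy => hz _ (Or.inl ⟨y, hy, rfl⟩))
  have hP1 : IsClosed {y : M | ∃ z ∈ ZS n F ν y t, z ∈ Ici q₀} :=
    closed_lev F ν t hK (Ici q₀) isClosed_Ici
  have hP2 : IsClosed {y : M | ∃ z ∈ ZS n F ν y t, z ∈ Iic (-q₀)} :=
    closed_lev F ν t hK (Iic (-q₀)) isClosed_Iic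
  have hq2 : k / rr n t < q₀ ^ 2 := by
    rw [div_lt_iff₀ hr]; nlinarith
  have hdisj : ∀ y : M, (∃ z ∈ ZS n F ν y t, z ∈ Ici q₀) → (∃ z ∈ ZS n F ν y t, z ∈ Iic (-q₀)) →
      False := by
    rintro y ⟨z₁, hz₁, h₁⟩ ⟨z₂, hz₂, h₂⟩
    have h3 := hP y z₁ hz₁ z₂ hz₂
    simp only [mem_Ici, mem_Iic] at h₁ h₂
    have h4 : q₀ * q₀ ≤ z₁ * (-z₂) := mul_le_mul h₁ (by linarith) hq0.le (by linarith)
    have h5 : 0 ≤ (1 - k) * z₁ ^ 2 := mul_nonneg (by linarith) (sq_nonneg _)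
    nlinarith
  have hcompl : {y : M | ∃ z ∈ ZS n F ν y t, z ∈ Iic (-q₀)} =
      {y : M | ∃ z ∈ ZS n F ν y t, z ∈ Ici q₀}ᶜ := by
    ext w
    constructor
    · intro h1 h2
      exact hdisj w h2 h1
    · intro h1
      obtain ⟨z, hzZ, hzq⟩ := hcov w
      rcases le_abs.mp hzq with h | h
      · exact absurd ⟨z, hzZ, h⟩ h1
      · exact ⟨z, hzZ, by simp only [mem_Iic]; linarith⟩
  have hclopen : IsClopen {y : M | ∃ z ∈ ZS n F ν y t, z ∈ Ici q₀} := by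
    refine ⟨hP1, ?_⟩
    rw [hcompl] at hP2
    exact isClosed_compl_iff.mp hP2
  have hne : ({y : M | ∃ z ∈ ZS n F ν y t, z ∈ Ici q₀} : Set M).Nonempty := by
    obtain ⟨c, hc⟩ := unit_c hn1 F x₀ t (hF.mcf.imm x₀ t ht)
    exact ⟨x₀, hn F ν x₀ t c, Or.inr ⟨c, hc, rfl⟩, hz _ (Or.inr ⟨c, hc, rfl⟩)⟩
  have huniv := hclopen.eq_univ hne
  intro z₂ hz₂
  have hy : y ∈ {y : M | ∃ z ∈ ZS n F ν y t, z ∈ Ici q₀} := by rw [huniv]; trivial
  obtain ⟨z₁, hz₁, h₁⟩ := hy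
  simp only [mem_Ici] at h₁
  have hz1p : 0 < z₁ := lt_of_lt_of_le hq0 h₁
  have h3 := hP y z₁ hz₁ z₂ hz₂
  have h4 : (1 - k) * z₁ - k / (rr n t * z₁) < z₂ := by
    have h5 : (1 - k) * z₁ ^ 2 - k / rr n t < z₁ * z₂ := by linarith
    have h6 : z₁ * ((1 - k) * z₁ - k / (rr n t * z₁)) = (1 - k) * z₁ ^ 2 - k / rr n t := by
      field_simp
    rw [← h6] at h5
    exact lt_of_mul_lt_mul_left h5 hz1p.le
  have h7 : (1 - k) * q₀ ≤ (1 - k) * z₁ := mul_le_mul_of_nonneg_left h₁ (by linarith)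
  have h8 : k / (rr n t * z₁) ≤ k / (rr n t * q₀) :=
    div_le_div_of_nonneg_left hk0.le (mul_pos hr hq0) (mul_le_mul_of_nonneg_left h₁ hr.le)
  linarith

end Pool.Agent.Helper84.HSF
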